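import Mathlib
import Pool.Agent.Y327.Meet
import Pool.Agent.Y327.Full
import Pool.Agent.Y327.ZarDer
import Pool.Agent.TH314.CSD.Scales

/-! # Differentiable functions on minimal sets -/

open Filter Topology Matrix

set_option linter.unusedSectionVars false

namespace Pool.Agent.R503.CSD

open H715R2 Pool.Agent.Y327

variable {d : ℕ}

/-- the row `j` in place `i`, the other rows zero -/
def RR (i j : Fin d) (h : Fin d → Fin d → ℝ) : Fin d → Fin d → ℝ :=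
  fun a b => if a = i then h j b else 0

lemma transv_eq {i j : Fin d} (t : ℝ) (h : Fin d → Fin d → ℝ) :
    transvection i j t * Matrix.of h = Matrix.of (h + t • RR i j h) := by
  ext a b
  rw [transvection_mul_entry]
  simp only [RR, Matrix.of_apply, Pi.add_apply, Pi.smul_apply, smul_eq_mul, mul_ite, mul_zero]

lemma continuous_RR (i j : Fin d) :
    Continuous (fun h : Fin d → Fin d → ℝ => RR i j h) := by
  refine continuous_pi fun a => continuous_pi fun b => ?_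
  unfold RR
  split_ifs
  · exact continuous_apply_apply j b
  · exact continuous_const

/-- the scalings of the elements of a set -/
def Cn (M : Set (Matrix (Fin d) (Fin d) ℝ)) : Set (Fin d → Fin d → ℝ) :=
  {h | ∃ c : ℝ, 0 < c ∧ ∃ h' ∈ M, h = c • (h' : Fin d → Fin d → ℝ)}

lemma subset_Cn (M : Set (Matrix (Fin d) (Fin d) ℝ)) {h : Fin d → Fin d → ℝ}
    (hh : Matrix.of h ∈ M) : h ∈ Cn M := ⟨1, one_pos, h, hh, by rw [one_smul]⟩

variable {E : Type*} [NormedAddCommGroup E] [NormedSpace ℝ E]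

/-- a map which is strictly differentiable at a point and constant on pairs -/
theorem strict_root {S : Set (Fin d → Fin d → ℝ)} {i j : Fin d} {h₀ : Fin d → Fin d → ℝ}
    (hsmall : ∀ U ∈ 𝓝 h₀, ∀ δ : ℝ, 0 < δ → ∃ h ∈ S, h ∈ U ∧ ∃ t : ℝ, t ≠ 0 ∧
      |t| < δ ∧ h + t • RR i j h ∈ S)
    {f : (Fin d → Fin d → ℝ) → E} {f' : (Fin d → Fin d → ℝ) →L[ℝ] E}
    (hf : HasStrictFDerivAt f f' h₀) {c : E} (hz : ∀ᶠ h in 𝓝 h₀, h ∈ S → f h = c) :
    f' (RR i j h₀) = 0 := by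
  by_contra hne
  have hc0 : 0 < ‖f' (RR i j h₀)‖ := norm_pos_iff.2 hne
  set c0 := ‖f' (RR i j h₀)‖ with hc0d
  set B : ℝ := ‖RR i j h₀‖ + 1 with hB
  have hB0 : 0 < B := by positivity
  have hε : 0 < c0 / (4 * B) := by positivity
  have h1 := (hasStrictFDerivAt_iff_isLittleO.1 hf).def hε
  have hcR := continuous_RR (d := d) i j
  have hΦ : Continuous (fun z : ℝ × (Fin d → Fin d → ℝ) =>
      ((z.2 + z.1 • RR i j z.2, z.2) : (Fin d → Fin d → ℝ) × (Fin d → Fin d → ℝ))) := by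
    refine Continuous.prodMk (continuous_snd.add (continuous_fst.smul (hcR.comp continuous_snd)))
      continuous_snd
  have hΦ0 : Tendsto (fun z : ℝ × (Fin d → Fin d → ℝ) =>
      ((z.2 + z.1 • RR i j z.2, z.2) : (Fin d → Fin d → ℝ) × (Fin d → Fin d → ℝ)))
      (𝓝 (0, h₀)) (𝓝 (h₀, h₀)) := by
    have := hΦ.tendsto (0, h₀)
    simpa using this
  have e1 := hΦ0.eventually h1
  have hz2 : ∀ᶠ p : (Fin d → Fin d → ℝ) × (Fin d → Fin d → ℝ) in 𝓝 (h₀, h₀),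
      (p.1 ∈ S → f p.1 = c) ∧ (p.2 ∈ S → f p.2 = c) := by
    rw [nhds_prod_eq]
    exact hz.prod_mk hz
  have e2 := hΦ0.eventually hz2
  have e3 : ∀ᶠ z : ℝ × (Fin d → Fin d → ℝ) in 𝓝 (0, h₀), ‖RR i j z.2‖ < B := by
    have hc : Continuous (fun z : ℝ × (Fin d → Fin d → ℝ) => ‖RR i j z.2‖) :=
      (hcR.comp continuous_snd).norm
    refine hc.continuousAt.eventually_lt continuousAt_const ?_
    simp only [hB]
    linarith
  have e4 : ∀ᶠ z : ℝ × (Fin d → Fin d → ℝ) in 𝓝 (0, h₀), c0 / 2 < ‖f' (RR i j z.2)‖ := by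
    have hc : Continuous (fun z : ℝ × (Fin d → Fin d → ℝ) => ‖f' (RR i j z.2)‖) :=
      (f'.continuous.comp (hcR.comp continuous_snd)).norm
    refine continuousAt_const.eventually_lt hc.continuousAt ?_
    simp only [← hc0d]
    linarith
  have h3 := (e1.and e2).and (e3.and e4)
  rw [nhds_prod_eq] at h3
  obtain ⟨A, hA, U, hU, hAU⟩ := Filter.eventually_prod_iff.1 h3
  obtain ⟨δ, hδ, hδA⟩ := Metric.eventually_nhds_iff.1 hA
  obtain ⟨h, hhM, hhU, t, ht, htδ, hth⟩ := hsmall {x | U x} hU δ hδ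
  have hA' : A t := hδA (by rwa [Real.dist_eq, sub_zero])
  obtain ⟨⟨g1, g2, g3⟩, g4, g5⟩ := hAU hA' hhU
  rw [g2 hth, g3 hhM, sub_self, zero_sub, norm_neg, add_sub_cancel_left, map_smul, norm_smul,
    norm_smul] at g1
  have ht0 : 0 < ‖t‖ := norm_pos_iff.2 ht
  have h5 : ‖f' (RR i j h)‖ ≤ c0 / (4 * B) * ‖RR i j h‖ := by
    have h6 : ‖t‖ * ‖f' (RR i j h)‖ ≤ ‖t‖ * (c0 / (4 * B) * ‖RR i j h‖) := by
      linarith
    exact le_of_mul_le_mul_left h6 ht0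
  have h7 : c0 / (4 * B) * ‖RR i j h‖ ≤ c0 / (4 * B) * B :=
    mul_le_mul_of_nonneg_left g4.le hε.le
  have h8 : c0 / (4 * B) * B = c0 / 4 := by
    field_simp
  linarith

/-- the small pairs of a scaled set -/
lemma small_cn {M : Set (Matrix (Fin d) (Fin d) ℝ)} {i j : Fin d}
    (hsmall : ∀ h₀ ∈ M, ∀ U ∈ 𝓝 h₀, ∀ δ : ℝ, 0 < δ → ∃ h ∈ M, h ∈ U ∧ ∃ t : ℝ, t ≠ 0 ∧
      |t| < δ ∧ transvection i j t * h ∈ M) {h₀ : Fin d → Fin d → ℝ} (hh₀ : h₀ ∈ Cn M) :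
    ∀ U ∈ 𝓝 h₀, ∀ δ : ℝ, 0 < δ → ∃ h ∈ Cn M, h ∈ U ∧ ∃ t : ℝ, t ≠ 0 ∧
      |t| < δ ∧ h + t • RR i j h ∈ Cn M := by
  intro U hU δ hδ
  obtain ⟨c, hc, h', hh', rfl⟩ := hh₀
  have hcont : Continuous (fun x : Fin d → Fin d → ℝ => c • x) := continuous_const_smul c
  have hU' : (fun x : Fin d → Fin d → ℝ => c • x) ⁻¹' U ∈ 𝓝 (h' : Fin d → Fin d → ℝ) :=
    hcont.continuousAt.preimage_mem_nhds hU
  obtain ⟨h, hhM, hhU, t, ht, htδ, hth⟩ := hsmall h' hh' _ hU' δ hδ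
  obtain ⟨h, rfl⟩ : ∃ h₁ : Fin d → Fin d → ℝ, Matrix.of h₁ = h := ⟨h, rfl⟩
  refine ⟨c • h, ⟨c, hc, Matrix.of h, hhM, rfl⟩, hhU, t, ht, htδ, ?_⟩
  rw [transv_eq] at hth
  refine ⟨c, hc, _, hth, ?_⟩
  funext a b
  show c * h a b + t * RR i j (c • h) a b = c * (h a b + t * RR i j h a b)
  simp only [RR, Pi.smul_apply, smul_eq_mul]
  split_ifs <;> ring

/-- the scaled set is invariant under positive diagonal matrices -/
lemma cn_diag {M : Set (Matrix (Fin d) (Fin d) ℝ)} (hd : 0 < d) (hM : InvB id M)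
    {h₀ : Fin d → Fin d → ℝ} (hh₀ : h₀ ∈ Cn M) {a : Fin d → ℝ} (ha : ∀ i, 0 < a i) :
    (fun i j => a i * h₀ i j) ∈ Cn M := by
  obtain ⟨c, hc, h', hh', rfl⟩ := hh₀
  have hd' : (d : ℝ) ≠ 0 := by exact_mod_cast hd.ne'
  have hP : 0 < ∏ i, a i := Finset.prod_pos fun i _ => ha i
  set r : ℝ := (∏ i, a i) ^ ((d : ℝ)⁻¹) with hr
  have hr0 : 0 < r := Real.rpow_pos_of_pos hP _
  have hrd : r ^ d = ∏ i, a i := by
    rw [hr, ← Real.rpow_natCast, ← Real.rpow_mul hP.le, inv_mul_cancel₀ hd', Real.rpow_one]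
  have hb : BB id (fun i => a i / r) := by
    refine ⟨fun i => div_pos (ha i) hr0, ?_, fun i j hij => by rw [show i = j from hij]⟩
    rw [Finset.prod_div_distrib, Finset.prod_const, Finset.card_univ, Fintype.card_fin, hrd,
      div_self hP.ne']
  refine ⟨c * r, mul_pos hc hr0, _, hM.diag hh' hb, ?_⟩
  funext i j
  have h1 : (diagonal (fun i => a i / r) * h') i j = a i / r * h' i j := by
    rw [Matrix.diagonal_mul]
  show a i * (c * h' i j) = c * r * (diagonal (fun i => a i / r) * h') i j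
  rw [h1]
  field_simp

lemma strict_diag {M : Set (Matrix (Fin d) (Fin d) ℝ)} (hd : 0 < d) (hM : InvB id M)
    {h₀ : Fin d → Fin d → ℝ} (hh₀ : h₀ ∈ Cn M) (i : Fin d)
    {f : (Fin d → Fin d → ℝ) → E} {f' : (Fin d → Fin d → ℝ) →L[ℝ] E}
    (hf : HasFDerivAt f f' h₀) {c : E} (hz : ∀ᶠ h in 𝓝 h₀, h ∈ Cn M → f h = c) :
    f' (RR i i h₀) = 0 := by
  have hγ : HasDerivAt (fun t : ℝ => h₀ + t • RR i i h₀) (RR i i h₀) 0 := by
    have h1 := ((hasDerivAt_id (0 : ℝ)).smul_const (RR i i h₀)).const_add h₀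
    simpa using h1
  have hγ0 : (fun t : ℝ => h₀ + t • RR i i h₀) 0 = h₀ := by simp
  have h1 : HasDerivAt (f ∘ fun t : ℝ => h₀ + t • RR i i h₀) (f' (RR i i h₀)) 0 := by
    refine HasFDerivAt.comp_hasDerivAt (0 : ℝ) ?_ hγ
    simpa using hf
  have hev : ∀ᶠ t : ℝ in 𝓝 0, (f ∘ fun t : ℝ => h₀ + t • RR i i h₀) t = c := by
    have hc : Tendsto (fun t : ℝ => h₀ + t • RR i i h₀) (𝓝 0) (𝓝 h₀) := by
      have := hγ.continuousAt.tendsto
      simpa using this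
    have h2 : ∀ᶠ t : ℝ in 𝓝 0, -1 < t := eventually_gt_nhds (by norm_num)
    filter_upwards [hc.eventually hz, h2] with t ht ht2
    refine ht ?_
    have h3 := cn_diag hd hM hh₀ (a := fun k => if k = i then 1 + t else 1) (by
      intro k
      split_ifs
      · linarith
      · exact one_pos)
    convert h3 using 1
    funext a b
    simp only [RR, Pi.add_apply, Pi.smul_apply, smul_eq_mul]
    split_ifs with hk
    · subst hk; ring
    · ring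
  have h4 : HasDerivAt (f ∘ fun t : ℝ => h₀ + t • RR i i h₀) (0 : E) 0 :=
    (hasDerivAt_const (0 : ℝ) c).congr_of_eventuallyEq hev
  exact h1.unique h4

/-- the directions span everything -/
lemma eq_zero_of_RR {h₀ : Fin d → Fin d → ℝ} (hdet : (Matrix.of h₀).det ≠ 0)
    {f' : (Fin d → Fin d → ℝ) →L[ℝ] E} (hR : ∀ i j, f' (RR i j h₀) = 0) : f' = 0 := by
  classical
  refine ContinuousLinearMap.ext fun X => ?_
  have hu : IsUnit (Matrix.of h₀).det := isUnit_iff_ne_zero.2 hdet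
  set Y : Matrix (Fin d) (Fin d) ℝ := Matrix.of X * (Matrix.of h₀)⁻¹ with hY
  have hYX : Y * Matrix.of h₀ = Matrix.of X := by
    rw [hY, Matrix.mul_assoc, Matrix.nonsing_inv_mul _ hu, Matrix.mul_one]
  have hX : X = ∑ i, ∑ j, Y i j • RR i j h₀ := by
    funext a b
    have h1 : X a b = (Y * Matrix.of h₀) a b := by rw [hYX]; rfl
    rw [h1, Matrix.mul_apply]
    symm
    rw [Finset.sum_apply, Finset.sum_apply, Finset.sum_eq_single a]
    · rw [Finset.sum_apply, Finset.sum_apply]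
      refine Finset.sum_congr rfl fun j _ => ?_
      simp only [RR, Pi.smul_apply, smul_eq_mul, if_true, Matrix.of_apply]
    · intro i _ hi
      rw [Finset.sum_apply, Finset.sum_apply]
      refine Finset.sum_eq_zero fun j _ => ?_
      simp only [RR, Pi.smul_apply, smul_eq_mul, if_neg hi.symm, mul_zero]
    · intro h; exact absurd (Finset.mem_univ a) h
  rw [hX, map_sum]
  refine Finset.sum_eq_zero fun i _ => ?_
  rw [map_sum]
  refine Finset.sum_eq_zero fun j _ => ?_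
  rw [map_smul, hR, smul_zero]

/-- a root direction in the minimal set of a counterexample -/
lemma small_sam (hd : 3 ≤ d) {g : Matrix (Fin d) (Fin d) ℝ} (hg : g.det ≠ 0) {ν : ℝ}
    (hν : 0 < ν) (hnu : HasNu g ν) {M : Set (Matrix (Fin d) (Fin d) ℝ)}
    (hMg : M ⊆ closure (Orb g)) (hM : MinB id M) {h₁ : Matrix (Fin d) (Fin d) ℝ} (hh₁ : h₁ ∈ M)
    {i j : Fin d} (hij : i ≠ j) (hs : Sam h₁ i j) :
    ∀ h₀ ∈ M, ∀ U ∈ 𝓝 h₀, ∀ δ : ℝ, 0 < δ → ∃ h ∈ M, h ∈ U ∧ ∃ t : ℝ, t ≠ 0 ∧ |t| < δ ∧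
      transvection i j t * h ∈ M := by
  obtain ⟨h₂, hh₂, hw₂⟩ := root_dir hd hg hν hnu hMg hM hh₁ hij hs 1
  exact small_pairs (by omega) (abs_pos.2 hg) hν (fun h hh => abs_det_closure (hMg hh))
    (fun h hh => hasNu_closure hnu (hMg hh)) hM hij one_ne_zero hh₂ hw₂

/-- **Root directions.** -/
theorem strict_sam (hd : 3 ≤ d) {g : Matrix (Fin d) (Fin d) ℝ} (hg : g.det ≠ 0) {ν : ℝ}
    (hν : 0 < ν) (hnu : HasNu g ν) {M : Set (Matrix (Fin d) (Fin d) ℝ)}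
    (hMg : M ⊆ closure (Orb g)) (hM : MinB id M) {h₁ : Matrix (Fin d) (Fin d) ℝ} (hh₁ : h₁ ∈ M)
    {i j : Fin d} (hij : i ≠ j) (hs : Sam h₁ i j)
    {h₀ : Fin d → Fin d → ℝ} (hh₀ : Matrix.of h₀ ∈ M)
    {f : (Fin d → Fin d → ℝ) → E} {f' : (Fin d → Fin d → ℝ) →L[ℝ] E}
    (hf : HasStrictFDerivAt f f' h₀) {c : E}
    (hz : ∀ᶠ h in 𝓝 h₀, Matrix.of h ∈ M → f h = c) :
    f' (RR i j h₀) = 0 := by
  have h1 := small_sam hd hg hν hnu hMg hM hh₁ hij hs (Matrix.of h₀) hh₀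
  refine strict_root (S := {h | Matrix.of h ∈ M}) (fun U hU δ hδ => ?_) hf hz
  obtain ⟨h, hhM, hhU, t, ht, htδ, hth⟩ := h1 U hU δ hδ
  obtain ⟨h, rfl⟩ : ∃ h₁ : Fin d → Fin d → ℝ, Matrix.of h₁ = h := ⟨h, rfl⟩
  refine ⟨h, hhM, hhU, t, ht, htδ, ?_⟩
  rw [transv_eq] at hth
  exact hth

/-- in prime dimension all indices are in one class -/
lemma sam_of_prime (hd : 3 ≤ d) (hp : d.Prime) {g : Matrix (Fin d) (Fin d) ℝ} (hg : g.det ≠ 0)
    {ν : ℝ} (hν : 0 < ν) (hnu : HasNu g ν) (hint : ¬ PropInt g)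
    {M : Set (Matrix (Fin d) (Fin d) ℝ)}
    (hMg : M ⊆ closure (Orb g)) (hM : MinB id M) {h₁ : Matrix (Fin d) (Fin d) ℝ} (hh₁ : h₁ ∈ M)
    (i j : Fin d) : Sam h₁ i j := by
  obtain ⟨j', hj', hs⟩ := exists_sam_of_card hd hg hν hnu hint hMg hM hh₁ (i := i) (J := {j})
    (by rw [Finset.card_singleton, hp.minFac_eq]; omega)
  rw [Finset.mem_singleton] at hj'
  rwa [hj'] at hs

lemma det_cn {g : Matrix (Fin d) (Fin d) ℝ} (hg : g.det ≠ 0)
    {M : Set (Matrix (Fin d) (Fin d) ℝ)} (hMg : M ⊆ closure (Orb g)) {h₀ : Fin d → Fin d → ℝ}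
    (hh₀ : h₀ ∈ Cn M) : (Matrix.of h₀).det ≠ 0 := by
  obtain ⟨c, hc, h', hh', rfl⟩ := hh₀
  have h1 : (Matrix.of (c • (h' : Fin d → Fin d → ℝ))) = c • h' := rfl
  rw [h1, Matrix.det_smul]
  refine mul_ne_zero (pow_ne_zero _ hc.ne') ?_
  rw [← abs_ne_zero, abs_det_closure (hMg hh'), abs_ne_zero]
  exact hg

/-- **A strictly differentiable map which is constant on the scaled minimal set has derivative
zero.** -/
theorem strict_zero (hd : 3 ≤ d) (hp : d.Prime) {g : Matrix (Fin d) (Fin d) ℝ} (hg : g.det ≠ 0)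
    {ν : ℝ} (hν : 0 < ν) (hnu : HasNu g ν) (hint : ¬ PropInt g)
    {M : Set (Matrix (Fin d) (Fin d) ℝ)}
    (hMg : M ⊆ closure (Orb g)) (hM : MinB id M) {h₀ : Fin d → Fin d → ℝ} (hh₀ : h₀ ∈ Cn M)
    {f : (Fin d → Fin d → ℝ) → E} {f' : (Fin d → Fin d → ℝ) →L[ℝ] E}
    (hf : HasStrictFDerivAt f f' h₀) {c : E} (hz : ∀ᶠ h in 𝓝 h₀, h ∈ Cn M → f h = c) :
    f' = 0 := by
  refine eq_zero_of_RR (det_cn hg hMg hh₀) fun i j => ?_
  by_cases hij : i = j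
  · subst hij
    exact strict_diag (by omega) hM.inv hh₀ i hf.hasFDerivAt hz
  · obtain ⟨h₁, hh₁⟩ := hM.ne
    have hs := sam_of_prime hd hp hg hν hnu hint hMg hM hh₁ i j
    exact strict_root (small_cn (small_sam hd hg hν hnu hMg hM hh₁ hij hs) hh₀) hf hz

/-- **All derivatives vanish.** -/
theorem iterated_zero (hd : 3 ≤ d) (hp : d.Prime) {g : Matrix (Fin d) (Fin d) ℝ}
    (hg : g.det ≠ 0)
    {ν : ℝ} (hν : 0 < ν) (hnu : HasNu g ν) (hint : ¬ PropInt g)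
    {M : Set (Matrix (Fin d) (Fin d) ℝ)}
    (hMg : M ⊆ closure (Orb g)) (hM : MinB id M) {W : Set (Fin d → Fin d → ℝ)} (hW : IsOpen W)
    {f : (Fin d → Fin d → ℝ) → E} {k : WithTop ℕ∞} (hf : ContDiffOn ℝ k f W)
    (hz : ∀ h ∈ W, h ∈ Cn M → f h = 0) (m : ℕ) (hm : (m : WithTop ℕ∞) ≤ k) :
    ∀ h ∈ W, h ∈ Cn M → iteratedFDeriv ℝ m f h = 0 := by
  induction m with
  | zero =>
    intro h hh hhM
    rw [← norm_eq_zero, norm_iteratedFDeriv_zero, norm_eq_zero]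
    exact hz h hh hhM
  | succ m ih =>
    intro h hh hhM
    have ih' := ih (le_trans (by exact_mod_cast Nat.le_succ m) hm)
    have h1 : ContDiffAt ℝ k f h := hf.contDiffAt (hW.mem_nhds hh)
    have h2 : ContDiffAt ℝ 1 (iteratedFDeriv ℝ m f) h := by
      refine h1.iteratedFDeriv_right ?_
      refine le_trans (le_of_eq ?_) hm
      push_cast
      rw [add_comm]
    have h3 := h2.hasStrictFDerivAt one_ne_zero
    have h4 := strict_zero hd hp hg hν hnu hint hMg hM hhM h3 (c := 0) (by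
      filter_upwards [hW.mem_nhds hh] with h' hh' hhM'
      exact ih' h' hh' hhM')
    have h5 : ‖fderiv ℝ (iteratedFDeriv ℝ m f) h‖ = 0 := by
      rw [h4]
      exact ContinuousLinearMap.opNorm_zero
    rw [norm_fderiv_iteratedFDeriv] at h5
    exact norm_eq_zero.1 h5

/-- **Analytic maps vanish.** -/
theorem analytic_zero [CompleteSpace E] (hd : 3 ≤ d) (hp : d.Prime)
    {g : Matrix (Fin d) (Fin d) ℝ} (hg : g.det ≠ 0)
    {ν : ℝ} (hν : 0 < ν) (hnu : HasNu g ν) (hint : ¬ PropInt g)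
    {M : Set (Matrix (Fin d) (Fin d) ℝ)}
    (hMg : M ⊆ closure (Orb g)) (hM : MinB id M) {W : Set (Fin d → Fin d → ℝ)} (hW : IsOpen W)
    (hWc : IsPreconnected W) {f : (Fin d → Fin d → ℝ) → E} (hf : AnalyticOnNhd ℝ f W)
    (hz : ∀ h ∈ W, h ∈ Cn M → f h = 0) {h₀ : Fin d → Fin d → ℝ} (hh₀ : h₀ ∈ W)
    (hh₀M : h₀ ∈ Cn M) : ∀ h ∈ W, f h = 0 := by
  have h1 : ∀ m : ℕ, iteratedFDeriv ℝ m f h₀ = 0 := fun m =>
    iterated_zero hd hp hg hν hnu hint hMg hM hW (k := ⊤) (hf.contDiffOn hW.uniqueDiffOn) hz m le_top h₀ hh₀ hh₀M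
  obtain ⟨p, r, hpr⟩ := hf h₀ hh₀
  have h2 : ∀ᶠ h in 𝓝 h₀, f h = 0 := by
    filter_upwards [Metric.eball_mem_nhds h₀ hpr.r_pos] with h hh
    have h3 : h - h₀ ∈ Metric.eball (0 : Fin d → Fin d → ℝ) r := by
      rw [Metric.mem_eball] at hh ⊢
      rwa [edist_zero_right, ← edist_eq_enorm_sub]
    have h4 := hpr.hasSum_iteratedFDeriv h3
    simp only [h1, ContinuousMultilinearMap.zero_apply, smul_zero] at h4
    rw [add_sub_cancel] at h4
    exact (h4.unique hasSum_zero)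
  exact fun h hh => hf.eqOn_zero_of_preconnected_of_eventuallyEq_zero hWc hh₀ h2 hh

end Pool.Agent.R503.CSD
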