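import Mathlib
import Pool.Agent.R503.CSD.Core

/-! # Relations between the values of a counterexample -/

open Filter Topology Matrix

set_option linter.unusedSectionVars false

namespace Pool.Agent.R503.CSD

open H715R2 Pool.Agent.Y327

variable {d m : ℕ}

/-- the values at the points `x k` -/
noncomputable def FV (x : Fin m → Fin d → ℤ) (h : Fin d → Fin d → ℝ) : Fin m → ℝ :=
  fun k => FF (Matrix.of h) (iR (x k))

/-- the determinant -/
noncomputable def dt (h : Fin d → Fin d → ℝ) : ℝ := (Matrix.of h).det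

/-- the linear form -/
noncomputable def lf (i : Fin d) (x : Fin d → ℤ) (h : Fin d → Fin d → ℝ) : ℝ :=
  ∑ j, h i j * (x j : ℝ)

lemma FV_eq (x : Fin m → Fin d → ℤ) (h : Fin d → Fin d → ℝ) (k : Fin m) :
    FV x h k = ∏ i, lf i (x k) h := rfl

lemma an_entry (i j : Fin d) (h : Fin d → Fin d → ℝ) :
    AnalyticAt ℝ (fun h : Fin d → Fin d → ℝ => h i j) h :=
  ((ContinuousLinearMap.proj (R := ℝ) (φ := fun _ : Fin d => ℝ) j).comp
    (ContinuousLinearMap.proj (R := ℝ) (φ := fun _ : Fin d => (Fin d → ℝ)) i)).analyticAt h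

lemma an_FVk (x : Fin m → Fin d → ℤ) (k : Fin m) (h : Fin d → Fin d → ℝ) :
    AnalyticAt ℝ (fun h => FV x h k) h := by
  have h1 : (fun h => FV x h k) = fun h : Fin d → Fin d → ℝ =>
      ∏ i, ∑ j, h i j * ((x k j : ℤ) : ℝ) := rfl
  rw [h1]
  refine Finset.analyticAt_fun_prod _ fun i _ => ?_
  refine Finset.analyticAt_fun_sum _ fun j _ => ?_
  exact (an_entry i j h).mul analyticAt_const

lemma an_FV (x : Fin m → Fin d → ℤ) (h : Fin d → Fin d → ℝ) : AnalyticAt ℝ (FV x) h :=
  AnalyticAt.pi fun k => an_FVk x k h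

lemma an_dt (h : Fin d → Fin d → ℝ) : AnalyticAt ℝ (dt : (Fin d → Fin d → ℝ) → ℝ) h := by
  have h1 : (dt : (Fin d → Fin d → ℝ) → ℝ) = fun h : Fin d → Fin d → ℝ =>
      ∑ σ : Equiv.Perm (Fin d), ((Equiv.Perm.sign σ : ℤ) : ℝ) * ∏ i, h (σ i) i := by
    funext h
    rw [dt, Matrix.det_apply']
    rfl
  rw [h1]
  refine Finset.analyticAt_fun_sum _ fun σ _ => ?_
  refine analyticAt_const.mul ?_
  exact Finset.analyticAt_fun_prod _ fun i _ => an_entry _ _ h

/-- the quotients of the values and the determinant -/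
noncomputable def ratio (x : Fin m → Fin d → ℤ) (h : Fin d → Fin d → ℝ) : Fin m → ℝ :=
  fun k => FV x h k / dt h

lemma an_ratio (x : Fin m → Fin d → ℤ) {h : Fin d → Fin d → ℝ} (hh : dt h ≠ 0) :
    AnalyticAt ℝ (ratio x) h :=
  AnalyticAt.pi fun k => (an_FVk x k h).div (an_dt h) hh

lemma lf_add (i j a : Fin d) (x : Fin d → ℤ) (h : Fin d → Fin d → ℝ) (t : ℝ) :
    lf a x (h + t • RR i j h) = lf a x h + if a = i then t * lf j x h else 0 := by
  simp only [lf, RR, Pi.add_apply, Pi.smul_apply, smul_eq_mul]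
  by_cases ha : a = i
  · simp only [if_pos ha]
    rw [Finset.mul_sum, ← Finset.sum_add_distrib]
    exact Finset.sum_congr rfl fun b _ => by ring
  · simp only [if_neg ha, mul_zero, add_zero]

lemma FV_add (x : Fin m → Fin d → ℤ) {i j : Fin d} (h : Fin d → Fin d → ℝ) (t : ℝ)
    (k : Fin m) (hl : lf i (x k) h ≠ 0) :
    FV x (h + t • RR i j h) k = FV x h k * (1 + t * (lf j (x k) h / lf i (x k) h)) := by
  rw [FV_eq, FV_eq]
  have h1 : ∀ a, lf a (x k) (h + t • RR i j h) =
      lf a (x k) h * (if a = i then 1 + t * (lf j (x k) h / lf i (x k) h) else 1) := by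
    intro a
    rw [lf_add]
    by_cases ha : a = i
    · subst ha
      simp only [if_true]
      field_simp
    · simp only [if_neg ha]
      ring
  simp only [h1]
  rw [Finset.prod_mul_distrib, Finset.prod_ite_eq' Finset.univ i, if_pos (Finset.mem_univ i)]

lemma dt_add {i j : Fin d} (hij : i ≠ j) (h : Fin d → Fin d → ℝ) (t : ℝ) :
    dt (h + t • RR i j h) = dt h := by
  rw [dt, ← transv_eq, Matrix.det_mul, Matrix.det_transvection_of_ne i j hij t, one_mul, dt]

lemma hasDerivAt_line (i j : Fin d) (h : Fin d → Fin d → ℝ) :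
    HasDerivAt (fun t : ℝ => h + t • RR i j h) (RR i j h) 0 := by
  have h1 := ((hasDerivAt_id (0 : ℝ)).smul_const (RR i j h)).const_add h
  simpa using h1

lemma fv_dir (x : Fin m → Fin d → ℤ) {i j : Fin d} (h : Fin d → Fin d → ℝ)
    (hl : ∀ k, lf i (x k) h ≠ 0) :
    fderiv ℝ (FV x) h (RR i j h) = fun k => FV x h k * (lf j (x k) h / lf i (x k) h) := by
  have h1 : HasDerivAt (FV x ∘ fun t : ℝ => h + t • RR i j h) (fderiv ℝ (FV x) h (RR i j h)) 0 := by
    refine HasFDerivAt.comp_hasDerivAt (0 : ℝ) ?_ (hasDerivAt_line i j h)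
    simpa using (an_FV x h).differentiableAt.hasFDerivAt
  have h2 : HasDerivAt (FV x ∘ fun t : ℝ => h + t • RR i j h)
      (fun k => FV x h k * (lf j (x k) h / lf i (x k) h)) 0 := by
    rw [hasDerivAt_pi]
    intro k
    have h3 : (fun t : ℝ => (FV x ∘ fun t : ℝ => h + t • RR i j h) t k) =
        fun t : ℝ => FV x h k * (1 + t * (lf j (x k) h / lf i (x k) h)) := by
      funext t
      exact FV_add x h t k (hl k)
    rw [h3]
    have h4 := (((hasDerivAt_id (0 : ℝ)).mul_const (lf j (x k) h / lf i (x k) h)).const_add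
      1).const_mul (FV x h k)
    simpa using h4
  exact h1.unique h2

lemma ratio_dir (x : Fin m → Fin d → ℤ) {i j : Fin d} (hij : i ≠ j) {h : Fin d → Fin d → ℝ}
    (hd : dt h ≠ 0) (hl : ∀ k, lf i (x k) h ≠ 0) :
    fderiv ℝ (ratio x) h (RR i j h) =
      fun k => ratio x h k * (lf j (x k) h / lf i (x k) h) := by
  have h1 : HasDerivAt (ratio x ∘ fun t : ℝ => h + t • RR i j h)
      (fderiv ℝ (ratio x) h (RR i j h)) 0 := by
    refine HasFDerivAt.comp_hasDerivAt (0 : ℝ) ?_ (hasDerivAt_line i j h)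
    simpa using (an_ratio x hd).differentiableAt.hasFDerivAt
  have h2 : HasDerivAt (ratio x ∘ fun t : ℝ => h + t • RR i j h)
      (fun k => ratio x h k * (lf j (x k) h / lf i (x k) h)) 0 := by
    rw [hasDerivAt_pi]
    intro k
    have h3 : (fun t : ℝ => (ratio x ∘ fun t : ℝ => h + t • RR i j h) t k) =
        fun t : ℝ => ratio x h k * (1 + t * (lf j (x k) h / lf i (x k) h)) := by
      funext t
      show FV x (h + t • RR i j h) k / dt (h + t • RR i j h) = _
      rw [FV_add x h t k (hl k), dt_add hij, ratio]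
      ring
    rw [h3]
    have h4 := (((hasDerivAt_id (0 : ℝ)).mul_const (lf j (x k) h / lf i (x k) h)).const_add
      1).const_mul (ratio x h k)
    simpa using h4
  exact h1.unique h2

/-- a linear map on `ℝ ^ m` which vanishes on vectors without common annihilator is zero -/
lemma zero_of_ann {ι : Type*} {w : ι → Fin m → ℝ}
    (hw : ∀ c : Fin m → ℝ, (∀ a, ∑ k, c k * w a k = 0) → c = 0) :
    Submodule.span ℝ (Set.range w) = ⊤ := by
  by_contra hne
  obtain ⟨f, hf, hle⟩ := Submodule.exists_le_ker_of_lt_top _ (lt_top_iff_ne_top.2 hne)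
  apply hf
  have h1 : ∀ y : Fin m → ℝ, f y = ∑ k, f (Pi.single k 1) * y k := by
    intro y
    conv_lhs => rw [← Finset.univ_sum_single y]
    rw [map_sum]
    refine Finset.sum_congr rfl fun k _ => ?_
    have h2 : (Pi.single k (y k) : Fin m → ℝ) = y k • Pi.single k (1 : ℝ) := by
      rw [← Pi.single_smul, smul_eq_mul, mul_one]
    rw [h2, map_smul, smul_eq_mul, mul_comm]
  have h3 := hw (fun k => f (Pi.single k 1)) (fun a => by
    rw [← h1]
    exact LinearMap.mem_ker.1 (hle (Submodule.subset_span ⟨a, rfl⟩)))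
  refine LinearMap.ext fun y => ?_
  rw [h1]
  simp only [LinearMap.zero_apply]
  refine Finset.sum_eq_zero fun k _ => ?_
  have h4 := congrFun h3 k
  simp only [Pi.zero_apply] at h4
  rw [h4, zero_mul]

/-- the common annihilator for independent points -/
lemma ann_indep (hm : m < d) {x : Fin m → Fin d → ℤ}
    (hx : LinearIndependent ℝ (fun k => iR (x k))) {h : Fin d → Fin d → ℝ} (hdt : dt h ≠ 0)
    (hl : ∀ i k, lf i (x k) h ≠ 0) (c : Fin m → ℝ)
    (hc : ∀ i j : Fin d, i ≠ j → ∑ k, c k * (FV x h k * (lf j (x k) h / lf i (x k) h)) = 0) :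
    c = 0 := by
  classical
  -- the points `p k`
  set p : Fin m → Fin d → ℝ := fun k => (Matrix.of h) *ᵥ iR (x k) with hp
  have hpk : ∀ k i, p k i = lf i (x k) h := fun k i => rfl
  have hFV : ∀ k, FV x h k ≠ 0 := by
    intro k
    rw [FV_eq]
    exact Finset.prod_ne_zero_iff.2 fun i _ => hl i k
  have hu : IsUnit (Matrix.of h).det := isUnit_iff_ne_zero.2 hdt
  have hpi : LinearIndependent ℝ p := by
    have h1 : LinearIndependent ℝ ((Matrix.mulVecLin (Matrix.of h)) ∘ fun k => iR (x k)) := by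
      refine hx.map' _ ?_
      rw [LinearMap.ker_eq_bot]
      exact Matrix.mulVec_injective_iff_isUnit.2 ((Matrix.isUnit_iff_isUnit_det _).2 hu)
    exact h1
  -- a vector orthogonal to the points
  obtain ⟨v, hv0, hv⟩ : ∃ v : Fin d → ℝ, v ≠ 0 ∧ ∀ k, ∑ j, p k j * v j = 0 := by
    set A : (Fin d → ℝ) →ₗ[ℝ] (Fin m → ℝ) := Matrix.mulVecLin (Matrix.of p) with hA
    have h1 : LinearMap.ker A ≠ ⊥ := by
      refine LinearMap.ker_ne_bot_of_finrank_lt ?_
      rw [Module.finrank_fin_fun, Module.finrank_fin_fun]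
      exact hm
    obtain ⟨v, hv1, hv2⟩ := (Submodule.ne_bot_iff _).1 h1
    refine ⟨v, hv2, fun k => ?_⟩
    have h2 := congrFun (LinearMap.mem_ker.1 hv1) k
    exact h2
  obtain ⟨i₀, hi₀⟩ : ∃ i, v i ≠ 0 := by
    by_contra hcon
    push Not at hcon
    exact hv0 (funext hcon)
  -- the diagonal sum
  have hC : ∀ i j : Fin d, ∑ k, c k * FV x h k / p k i * p k j =
      if i = j then ∑ k, c k * FV x h k else 0 := by
    intro i j
    by_cases hij : i = j
    · subst hij
      rw [if_pos rfl]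
      refine Finset.sum_congr rfl fun k _ => ?_
      rw [div_mul_cancel₀]
      rw [hpk]; exact hl i k
    · rw [if_neg hij, ← hc i j hij]
      refine Finset.sum_congr rfl fun k _ => ?_
      rw [hpk, hpk]
      ring
  have hC0 : ∑ k, c k * FV x h k = 0 := by
    have h1 : ∑ j, (∑ k, c k * FV x h k / p k i₀ * p k j) * v j = 0 := by
      simp only [Finset.sum_mul]
      rw [Finset.sum_comm]
      refine Finset.sum_eq_zero fun k _ => ?_
      have h2 : ∑ j, c k * FV x h k / p k i₀ * p k j * v j =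
          c k * FV x h k / p k i₀ * ∑ j, p k j * v j := by
        rw [Finset.mul_sum]
        exact Finset.sum_congr rfl fun j _ => by ring
      rw [h2, hv, mul_zero]
    simp only [hC, ite_mul, zero_mul] at h1
    rw [Finset.sum_ite_eq, if_pos (Finset.mem_univ _)] at h1
    exact (mul_eq_zero.1 h1).resolve_right hi₀
  have h1 : ∑ k, (c k * FV x h k / p k i₀) • p k = 0 := by
    funext j
    rw [Finset.sum_apply]
    simp only [Pi.smul_apply, smul_eq_mul, Pi.zero_apply]
    rw [hC, hC0, ite_self]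
  have h2 := Fintype.linearIndependent_iff.1 hpi _ h1
  funext k
  have h3 := h2 k
  rw [div_eq_zero_iff, mul_eq_zero] at h3
  rcases h3 with (h3 | h3) | h3
  · exact h3
  · exact absurd h3 (hFV k)
  · exact absurd h3 (by rw [hpk]; exact hl i₀ k)

lemma lf_ne {M : Set (Matrix (Fin d) (Fin d) ℝ)} {ν : ℝ} (hν : 0 < ν)
    (hMnu : ∀ h ∈ M, HasNu h ν) {h : Fin d → Fin d → ℝ} (hh : Matrix.of h ∈ M) (i : Fin d)
    {y : Fin d → ℤ} (hy : y ≠ 0) : lf i y h ≠ 0 := by
  intro h0
  have h1 := hMnu _ hh y hy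
  have h2 : FF (Matrix.of h) (iR y) = 0 := Finset.prod_eq_zero (Finset.mem_univ i) h0
  rw [h2, abs_zero] at h1
  exact absurd h1 (not_le.2 hν)

lemma ne_zero_of_indep {x : Fin m → Fin d → ℤ} (hx : LinearIndependent ℝ (fun k => iR (x k)))
    (k : Fin m) : x k ≠ 0 := by
  intro h0
  refine hx.ne_zero k ?_
  funext j
  simp [iR, h0]

/-- **Relations of class `C^k` between the values at independent points.** -/
theorem flat_values (hd : 3 ≤ d) (hp : d.Prime) {g : Matrix (Fin d) (Fin d) ℝ}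
    (hg : g.det ≠ 0) {ν : ℝ} (hν : 0 < ν) (hnu : HasNu g ν) (hint : ¬ PropInt g)
    {M : Set (Matrix (Fin d) (Fin d) ℝ)} (hMg : M ⊆ closure (Orb g)) (hM : MinB id M)
    (hm : m < d) {x : Fin m → Fin d → ℤ} (hx : LinearIndependent ℝ (fun k => iR (x k)))
    {V : Set (Fin m → ℝ)} (hV : IsOpen V) {φ : (Fin m → ℝ) → ℝ} {r : WithTop ℕ∞}
    (hφ : ContDiffOn ℝ r φ V)
    (hz : ∀ h : Fin d → Fin d → ℝ, Matrix.of h ∈ M → FV x h ∈ V → φ (FV x h) = 0)
    (q : ℕ) (hq : (q : WithTop ℕ∞) ≤ r) :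
    ∀ h : Fin d → Fin d → ℝ, Matrix.of h ∈ M → FV x h ∈ V →
      iteratedFDeriv ℝ q φ (FV x h) = 0 := by
  have hMnu : ∀ h ∈ M, HasNu h ν := fun h hh => hasNu_closure hnu (hMg hh)
  induction q with
  | zero =>
    intro h hh hhV
    rw [← norm_eq_zero, norm_iteratedFDeriv_zero, norm_eq_zero]
    exact hz h hh hhV
  | succ q ih =>
    intro h hh hhV
    have ih' := ih (le_trans (by exact_mod_cast Nat.le_succ q) hq)
    have h1 : ContDiffAt ℝ r φ (FV x h) := hφ.contDiffAt (hV.mem_nhds hhV)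
    have h2 : ContDiffAt ℝ 1 (iteratedFDeriv ℝ q φ) (FV x h) := by
      refine h1.iteratedFDeriv_right ?_
      refine le_trans (le_of_eq ?_) hq
      push_cast
      rw [add_comm]
    have h3 := h2.hasStrictFDerivAt one_ne_zero
    have hF : HasStrictFDerivAt (FV x) (fderiv ℝ (FV x) h) h :=
      ((an_FV x h).contDiffAt (n := 1)).hasStrictFDerivAt one_ne_zero
    have h4 := h3.comp h hF
    have hev : ∀ᶠ h' : Fin d → Fin d → ℝ in 𝓝 h, Matrix.of h' ∈ M →
        ((iteratedFDeriv ℝ q φ) ∘ FV x) h' = 0 := by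
      have h5 := (an_FV x h).continuousAt.preimage_mem_nhds (hV.mem_nhds hhV)
      filter_upwards [h5] with h' hh' hhM'
      exact ih' h' hhM' hh'
    have hlk : ∀ i k, lf i (x k) h ≠ 0 := fun i k =>
      lf_ne hν hMnu hh i (ne_zero_of_indep hx k)
    have hdt : dt h ≠ 0 := by
      have := abs_det_closure (hMg hh)
      rw [dt, ← abs_ne_zero, this, abs_ne_zero]
      exact hg
    set w : {a : Fin d × Fin d // a.1 ≠ a.2} → Fin m → ℝ := fun a k =>
      FV x h k * (lf a.1.2 (x k) h / lf a.1.1 (x k) h) with hw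
    have hspan := zero_of_ann (w := w) (fun c hc => ann_indep hm hx hdt hlk c
      (fun i j hij => hc ⟨(i, j), hij⟩))
    have h6 : fderiv ℝ (iteratedFDeriv ℝ q φ) (FV x h) = 0 := by
      refine ContinuousLinearMap.ext fun y => ?_
      have hy : y ∈ Submodule.span ℝ (Set.range w) := by rw [hspan]; trivial
      induction hy using Submodule.span_induction with
      | mem y hy =>
        obtain ⟨⟨⟨i, j⟩, hij⟩, rfl⟩ := hy
        obtain ⟨h₁, hh₁⟩ := hM.ne
        have hs := sam_of_prime hd hp hg hν hnu hint hMg hM hh₁ i j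
        have h7 := strict_sam hd hg hν hnu hMg hM hh₁ hij hs hh h4 hev
        rw [ContinuousLinearMap.comp_apply, fv_dir x h (hlk i)] at h7
        exact h7
      | zero => rw [map_zero, map_zero]
      | add y z _ _ hy hz => rw [map_add, hy, hz, map_add]
      | smul a y _ hy => rw [map_smul, hy, map_smul]
    have h7 : ‖fderiv ℝ (iteratedFDeriv ℝ q φ) (FV x h)‖ = 0 := by
      rw [h6]
      exact ContinuousLinearMap.opNorm_zero
    rw [norm_fderiv_iteratedFDeriv] at h7
    exact norm_eq_zero.1 h7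

/-- the points are free -/
def Free (x : Fin m → Fin d → ℤ) : Prop :=
  ∃ h : Fin d → Fin d → ℝ, dt h ≠ 0 ∧ Function.Surjective (fderiv ℝ (ratio x) h)

/-- the numerator of the derivative of the quotient -/
noncomputable def om (x : Fin m → Fin d → ℤ) (k : Fin m) (h X : Fin d → Fin d → ℝ) : ℝ :=
  dt h * fderiv ℝ (fun h => FV x h k) h X - FV x h k * fderiv ℝ (dt (d := d)) h X

lemma om_eq (x : Fin m → Fin d → ℤ) (k : Fin m) {h : Fin d → Fin d → ℝ} (hh : dt h ≠ 0)
    (X : Fin d → Fin d → ℝ) : om x k h X = dt h ^ 2 * fderiv ℝ (ratio x) h X k := by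
  have h1 := (an_ratio x hh).differentiableAt.hasFDerivAt
  have h2 : HasFDerivAt (fun h => ratio x h k)
      ((ContinuousLinearMap.proj (R := ℝ) (φ := fun _ : Fin m => ℝ) k).comp
        (fderiv ℝ (ratio x) h)) h := (hasFDerivAt_pi'.1 h1) k
  have h3 := (an_dt h).differentiableAt.hasFDerivAt
  have h4 : (fun h => FV x h k) =ᶠ[𝓝 h] fun h => ratio x h k * dt h := by
    filter_upwards [(an_dt h).continuousAt.eventually_ne hh] with h' hh'
    rw [ratio, div_mul_cancel₀ _ hh']
  have h5 := (h2.mul h3).congr_of_eventuallyEq h4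
  have h6 := h5.fderiv
  rw [om, h6]
  simp only [ContinuousLinearMap.add_apply, ContinuousLinearMap.smul_apply,
    ContinuousLinearMap.comp_apply, ContinuousLinearMap.proj_apply, smul_eq_mul]
  have h7 : FV x h k = ratio x h k * dt h := by rw [ratio, div_mul_cancel₀ _ hh]
  rw [h7]
  ring

lemma an_om (x : Fin m → Fin d → ℤ) (k : Fin m) (X h : Fin d → Fin d → ℝ) :
    AnalyticAt ℝ (fun h => om x k h X) h := by
  have h1 : AnalyticAt ℝ (fun h' => fderiv ℝ (fun h => FV x h k) h' X) h :=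
    ((ContinuousLinearMap.apply ℝ ℝ X).analyticAt _).comp (an_FVk x k h).fderiv
  have h2 : AnalyticAt ℝ (fun h' => fderiv ℝ (dt (d := d)) h' X) h :=
    ((ContinuousLinearMap.apply ℝ ℝ X).analyticAt _).comp (an_dt h).fderiv
  exact ((an_dt h).mul h1).sub ((an_FVk x k h).mul h2)

/-- free points have surjective derivative in every open set -/
lemma exists_onto {x : Fin m → Fin d → ℤ} (hx : Free x) {W : Set (Fin d → Fin d → ℝ)}
    (hW : IsOpen W) (hWne : W.Nonempty) :
    ∃ h ∈ W, dt h ≠ 0 ∧ Function.Surjective (fderiv ℝ (ratio x) h) := by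
  classical
  obtain ⟨h₁, hh₁, hs⟩ := hx
  choose X hX using fun l : Fin m => hs (Pi.single l 1)
  set mu : (Fin d → Fin d → ℝ) → ℝ := fun h =>
    (Matrix.of fun k l : Fin m => om x k h (X l)).det * dt h with hmu
  have hmu1 : mu h₁ ≠ 0 := by
    have h1 : (Matrix.of fun k l : Fin m => om x k h₁ (X l)) =
        dt h₁ ^ 2 • (1 : Matrix (Fin m) (Fin m) ℝ) := by
      ext k l
      rw [Matrix.of_apply, om_eq x k hh₁, hX, Matrix.smul_apply, Matrix.one_apply, Pi.single_apply]
      rfl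
    simp only [hmu]
    rw [h1, Matrix.det_smul, Matrix.det_one, mul_one]
    exact mul_ne_zero (pow_ne_zero _ (pow_ne_zero _ hh₁)) hh₁
  have han : AnalyticOnNhd ℝ mu Set.univ := by
    intro h _
    refine AnalyticAt.mul ?_ (an_dt h)
    have h1 : (fun h => (Matrix.of fun k l : Fin m => om x k h (X l)).det) = fun h =>
        ∑ σ : Equiv.Perm (Fin m), ((Equiv.Perm.sign σ : ℤ) : ℝ) *
          ∏ i, om x (σ i) h (X i) := by
      funext h
      rw [Matrix.det_apply']
      rfl
    rw [h1]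
    refine Finset.analyticAt_fun_sum _ fun σ _ => analyticAt_const.mul ?_
    exact Finset.analyticAt_fun_prod _ fun i _ => an_om x _ _ h
  obtain ⟨h₂, hh₂, hne⟩ : ∃ h ∈ W, mu h ≠ 0 := by
    by_contra hcon
    push Not at hcon
    obtain ⟨h₀, hh₀⟩ := hWne
    have h1 : mu =ᶠ[𝓝 h₀] 0 := by
      filter_upwards [hW.mem_nhds hh₀] with h hh
      exact hcon h hh
    exact hmu1 (han.eqOn_zero_of_preconnected_of_eventuallyEq_zero isPreconnected_univ
      (Set.mem_univ _) h1 (Set.mem_univ h₁))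
  have hd2 : dt h₂ ≠ 0 := fun h0 => hne (by simp only [hmu]; rw [h0, mul_zero])
  have hdet : (Matrix.of fun k l : Fin m => om x k h₂ (X l)).det ≠ 0 := fun h0 =>
    hne (by simp only [hmu]; rw [h0, zero_mul])
  refine ⟨h₂, hh₂, hd2, fun y => ?_⟩
  set A : Matrix (Fin m) (Fin m) ℝ := Matrix.of fun k l : Fin m => om x k h₂ (X l) with hA
  have hu : IsUnit A.det := isUnit_iff_ne_zero.2 hdet
  set a : Fin m → ℝ := A⁻¹ *ᵥ y with ha
  have hAa : A *ᵥ a = y := by
    rw [ha, Matrix.mulVec_mulVec, Matrix.mul_nonsing_inv _ hu, Matrix.one_mulVec]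
  refine ⟨dt h₂ ^ 2 • ∑ l, a l • X l, ?_⟩
  funext k
  rw [map_smul, map_sum, Pi.smul_apply, Finset.sum_apply, smul_eq_mul, Finset.mul_sum]
  have h1 := congrFun hAa k
  rw [Matrix.mulVec, dotProduct] at h1
  rw [← h1]
  refine Finset.sum_congr rfl fun l _ => ?_
  rw [map_smul, Pi.smul_apply, smul_eq_mul, hA, Matrix.of_apply, om_eq x k hd2]
  ring

/-- **Analytic relations between the values at free points.** -/
theorem analytic_values (hd : 3 ≤ d) (hp : d.Prime) {g : Matrix (Fin d) (Fin d) ℝ}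
    (hg : g.det ≠ 0) {ν : ℝ} (hν : 0 < ν) (hnu : HasNu g ν) (hint : ¬ PropInt g)
    {M : Set (Matrix (Fin d) (Fin d) ℝ)} (hMg : M ⊆ closure (Orb g)) (hM : MinB id M)
    {x : Fin m → Fin d → ℤ} (hx : Free x)
    {V : Set (Fin m → ℝ)} (hV : IsOpen V) (hVc : IsPreconnected V) {φ : (Fin m → ℝ) → ℝ}
    (hφ : AnalyticOnNhd ℝ φ V)
    (hz : ∀ h : Fin d → Fin d → ℝ, Matrix.of h ∈ M → FV x h ∈ V → φ (FV x h) = 0)
    {h₁ : Fin d → Fin d → ℝ} (hh₁ : Matrix.of h₁ ∈ M) (hh₁V : FV x h₁ ∈ V) :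
    ∀ y ∈ V, φ y = 0 := by
  classical
  have hd1 : dt h₁ ≠ 0 := by
    have := abs_det_closure (hMg hh₁)
    rw [dt, ← abs_ne_zero, this, abs_ne_zero]
    exact hg
  set N : (Fin d → Fin d → ℝ) → (Fin m → ℝ) := fun h => dt h₁ • ratio x h with hN
  have hN1 : N h₁ = FV x h₁ := by
    funext k
    simp only [hN, Pi.smul_apply, smul_eq_mul, ratio]
    field_simp
  have hanN : ∀ h, dt h ≠ 0 → AnalyticAt ℝ N h := fun h hh =>
    (analyticAt_const (v := dt h₁)).smul (an_ratio x hh)
  -- a ball around `h₁`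
  have hnb : ∀ᶠ h in 𝓝 h₁, 0 < dt h * dt h₁ ∧ N h ∈ V := by
    have e1 : ∀ᶠ h in 𝓝 h₁, 0 < dt h * dt h₁ := by
      have hc : ContinuousAt (fun h : Fin d → Fin d → ℝ => dt h * dt h₁) h₁ :=
        (an_dt h₁).continuousAt.mul continuousAt_const
      exact (continuousAt_const (y := (0 : ℝ))).eventually_lt hc (mul_self_pos.2 hd1)
    have e2 : ∀ᶠ h in 𝓝 h₁, N h ∈ V := by
      refine (hanN h₁ hd1).continuousAt.eventually_mem (hV.mem_nhds ?_)
      rw [hN1]
      exact hh₁V
    exact e1.and e2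
  obtain ⟨r, hr, hball⟩ := Metric.eventually_nhds_iff_ball.1 hnb
  set W := Metric.ball h₁ r with hW
  have hWd : ∀ h ∈ W, dt h ≠ 0 := fun h hh h0 => by
    have := (hball h hh).1
    rw [h0, zero_mul] at this
    exact lt_irrefl _ this
  have hΨ : AnalyticOnNhd ℝ (φ ∘ N) W := fun h hh =>
    (hφ (N h) (hball h hh).2).comp (hanN h (hWd h hh))
  have hzero : ∀ h ∈ W, (φ ∘ N) h = 0 := by
    refine analytic_zero hd hp hg hν hnu hint hMg hM Metric.isOpen_ball
      (convex_ball h₁ r).isPreconnected hΨ ?_ (Metric.mem_ball_self hr) (subset_Cn M hh₁)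
    rintro h hh ⟨c, hc, h', hh', rfl⟩
    obtain ⟨h', rfl⟩ : ∃ h₂ : Fin d → Fin d → ℝ, Matrix.of h₂ = h' := ⟨h', rfl⟩
    have hdc : dt (c • h') = c ^ d * dt h' := by
      have h2 : Matrix.of (c • h') = c • Matrix.of h' := rfl
      rw [dt, h2, Matrix.det_smul, Fintype.card_fin, dt]
    have hcd : 0 < c ^ d := pow_pos hc d
    have hh2 : c • h' ∈ W := hh
    have h3 := (hball _ hh2).1
    rw [hdc, mul_assoc] at h3
    have h4 : 0 < dt h' * dt h₁ := (mul_pos_iff_of_pos_left hcd).1 h3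
    have h5 : |dt h'| = |dt h₁| :=
      (abs_det_closure (hMg hh')).trans (abs_det_closure (hMg hh₁)).symm
    have h6 : dt h' = dt h₁ := by
      rcases abs_eq_abs.1 h5 with h7 | h7
      · exact h7
      · exfalso
        rw [h7] at h4
        nlinarith [mul_self_nonneg (dt h₁)]
    have h7 : N (c • h') = FV x h' := by
      funext k
      have h8 : FV x (c • h') k = c ^ d * FV x h' k := by
        rw [FV_eq, FV_eq]
        have h9 : ∀ i, lf i (x k) (c • h') = c * lf i (x k) h' := by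
          intro i
          simp only [lf, Pi.smul_apply, smul_eq_mul, Finset.mul_sum]
          exact Finset.sum_congr rfl fun j _ => by ring
        simp only [h9]
        rw [Finset.prod_mul_distrib, Finset.prod_const, Finset.card_univ, Fintype.card_fin]
      simp only [hN, Pi.smul_apply, smul_eq_mul, ratio]
      rw [h8, hdc, h6]
      field_simp
    have h10 : (φ ∘ N) (c • h') = 0 := by
      show φ (N (c • h')) = 0
      rw [h7]
      refine hz h' hh' ?_
      rw [← h7]
      exact (hball _ hh2).2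
    exact h10
  -- a point with surjective derivative
  obtain ⟨h₂, hh₂, hd2, hs⟩ := exists_onto hx (W := W) Metric.isOpen_ball
    ⟨h₁, Metric.mem_ball_self hr⟩
  have hst : HasStrictFDerivAt N (dt h₁ • fderiv ℝ (ratio x) h₂) h₂ :=
    (((an_ratio x hd2).contDiffAt (n := 1)).hasStrictFDerivAt one_ne_zero).const_smul (dt h₁)
  have hsurj : Function.Surjective (dt h₁ • fderiv ℝ (ratio x) h₂) := by
    intro y
    obtain ⟨X, hX⟩ := hs ((dt h₁)⁻¹ • y)
    refine ⟨X, ?_⟩
    rw [ContinuousLinearMap.smul_apply, hX, smul_smul, mul_inv_cancel₀ hd1, one_smul]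
  have hmap := hst.map_nhds_eq_of_surj (LinearMap.range_eq_top.2 hsurj)
  have h8 : ∀ᶠ y in 𝓝 (N h₂), φ y = 0 := by
    rw [← hmap, Filter.eventually_map]
    filter_upwards [Metric.isOpen_ball.mem_nhds hh₂] with h hh
    exact hzero h hh
  exact fun y hy => hφ.eqOn_zero_of_preconnected_of_eventuallyEq_zero hVc (hball h₂ hh₂).2 h8 hy

end Pool.Agent.R503.CSD
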