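import Mathlib
import Pool.Agent.R503.CSD.Val

/-! # The vectors of a basis are free -/

open Filter Topology Matrix

set_option linter.unusedSectionVars false

namespace Pool.Agent.R503.CSD

open H715R2 Pool.Agent.Y327

variable {d m : ℕ}

lemma surj_of_ann {x : Fin m → Fin d → ℤ} {h : Fin d → Fin d → ℝ} (hd : dt h ≠ 0)
    (hl : ∀ i k, lf i (x k) h ≠ 0)
    (hann : ∀ c : Fin m → ℝ, (∀ i j : Fin d, i ≠ j →
      ∑ k, c k * (ratio x h k * (lf j (x k) h / lf i (x k) h)) = 0) → c = 0) :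
    Function.Surjective (fderiv ℝ (ratio x) h) := by
  set w : {a : Fin d × Fin d // a.1 ≠ a.2} → Fin m → ℝ := fun a k =>
      ratio x h k * (lf a.1.2 (x k) h / lf a.1.1 (x k) h) with hw
  have hspan := zero_of_ann (w := w) (fun c hc => hann c (fun i j hij => hc ⟨(i, j), hij⟩))
  have h1 : LinearMap.range (fderiv ℝ (ratio x) h : (Fin d → Fin d → ℝ) →ₗ[ℝ] (Fin m → ℝ)) = ⊤ := by
    rw [eq_top_iff, ← hspan, Submodule.span_le]
    rintro _ ⟨⟨⟨i, j⟩, hij⟩, rfl⟩
    refine ⟨RR i j h, ?_⟩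
    exact ratio_dir x hij hd (hl i)
  exact LinearMap.range_eq_top.1 h1

/-- fewer than `d` independent points are free -/
lemma free_indep (hm : m < d) {x : Fin m → Fin d → ℤ}
    (hx : LinearIndependent ℝ (fun k => iR (x k))) {h : Fin d → Fin d → ℝ} (hdt : dt h ≠ 0)
    (hl : ∀ i k, lf i (x k) h ≠ 0) : Free x := by
  refine ⟨h, hdt, surj_of_ann hdt hl fun c hc => ?_⟩
  have h1 : (fun k => c k / dt h) = 0 := by
    refine ann_indep hm hx hdt hl _ fun i j hij => ?_
    rw [← hc i j hij]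
    refine Finset.sum_congr rfl fun k _ => ?_
    rw [ratio]
    ring
  funext k
  have h2 := congrFun h1 k
  simp only [Pi.zero_apply] at h2
  exact (div_eq_zero_iff.1 h2).resolve_right hdt

/-- the standard basis -/
def bas (d : ℕ) : Fin d → Fin d → ℤ := fun k => Pi.single k 1

lemma lf_bas (i k : Fin d) (h : Fin d → Fin d → ℝ) : lf i (bas d k) h = h i k := by
  unfold lf bas
  rw [Finset.sum_eq_single k]
  · simp
  · intro j _ hj
    rw [Pi.single_eq_of_ne hj]
    simp
  · intro hk; exact absurd (Finset.mem_univ k) hk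

/-- an explicit matrix -/
noncomputable def HH (d : ℕ) (i₀ : Fin d) : Fin d → Fin d → ℝ := fun i j =>
  1 + if i = j then (if i = i₀ then 1 else -((d : ℝ) - 1)) else 0

lemma HH_sum (i₀ i : Fin d) (q : Fin d → ℝ) :
    ∑ k, HH d i₀ i k * q k = (∑ k, q k) + (if i = i₀ then 1 else -((d : ℝ) - 1)) * q i := by
  have h1 : ∀ k, HH d i₀ i k * q k = q k + if i = k then
      (if i = i₀ then 1 else -((d : ℝ) - 1)) * q k else 0 := by
    intro k
    simp only [HH]
    split_ifs <;> ring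
  simp only [h1]
  rw [Finset.sum_add_distrib, Finset.sum_ite_eq, if_pos (Finset.mem_univ i)]

lemma sum_split (i₀ : Fin d) (q : Fin d → ℝ) {v : ℝ} (hq : ∀ j, j ≠ i₀ → q j = v) :
    ∑ k, q k = q i₀ + ((d : ℝ) - 1) * v := by
  rw [← Finset.add_sum_erase Finset.univ _ (Finset.mem_univ i₀)]
  congr 1
  rw [Finset.sum_congr rfl (fun j hj => hq j (Finset.ne_of_mem_erase hj)), Finset.sum_const,
    Finset.card_erase_of_mem (Finset.mem_univ i₀), Finset.card_univ, Fintype.card_fin,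
    nsmul_eq_mul, Nat.cast_sub (by have := i₀.2; omega)]
  simp

lemma HH_ne (hd : 3 ≤ d) (i₀ i j : Fin d) : HH d i₀ i j ≠ 0 := by
  have h3 : (3 : ℝ) ≤ d := by exact_mod_cast hd
  simp only [HH]
  split_ifs
  · norm_num
  · intro h; linarith
  · norm_num

lemma dt_HH (hd : 3 ≤ d) (i₀ : Fin d) : dt (HH d i₀) ≠ 0 := by
  have h3 : (3 : ℝ) ≤ d := by exact_mod_cast hd
  intro h0
  obtain ⟨v, hv, hv0⟩ := Matrix.exists_mulVec_eq_zero_iff.2 h0
  apply hv
  have h1 : ∀ i, (∑ k, v k) + (if i = i₀ then 1 else -((d : ℝ) - 1)) * v i = 0 := by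
    intro i
    rw [← HH_sum]
    exact congrFun hv0 i
  have h2 := h1 i₀
  rw [if_pos rfl, one_mul] at h2
  have h4 : ∀ j, j ≠ i₀ → v j = (∑ k, v k) / ((d : ℝ) - 1) := by
    intro j hj
    have h5 := h1 j
    rw [if_neg hj] at h5
    rw [eq_div_iff (by linarith)]
    linarith
  have h5 := sum_split i₀ v h4
  rw [mul_div_cancel₀ _ (by linarith : (d : ℝ) - 1 ≠ 0)] at h5
  have h6 : v i₀ = 0 := by linarith
  have h7 : ∑ k, v k = 0 := by linarith
  funext j
  by_cases hj : j = i₀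
  · rw [hj, h6]; rfl
  · rw [h4 j hj, h7, zero_div]; rfl

theorem free_bas (hd : 3 ≤ d) : Free (bas d) := by
  have h3 : (3 : ℝ) ≤ d := by exact_mod_cast hd
  set i₀ : Fin d := ⟨0, by omega⟩ with hi₀
  set i₁ : Fin d := ⟨1, by omega⟩ with hi₁
  have h01 : i₁ ≠ i₀ := by
    intro h
    have := congrArg Fin.val h
    simp [hi₀, hi₁] at this
  have hne := HH_ne hd i₀
  have hdt := dt_HH hd i₀
  have hl : ∀ i k, lf i (bas d k) (HH d i₀) ≠ 0 := fun i k => by
    rw [lf_bas]; exact hne i k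
  refine ⟨HH d i₀, hdt, surj_of_ann hdt hl fun c hc => ?_⟩
  have hr : ∀ k, ratio (bas d) (HH d i₀) k ≠ 0 := by
    intro k
    refine div_ne_zero ?_ hdt
    rw [FV_eq]
    exact Finset.prod_ne_zero_iff.2 fun i _ => hl i k
  -- the vectors `q i`
  set q : Fin d → Fin d → ℝ := fun i k => c k * ratio (bas d) (HH d i₀) k / HH d i₀ i k with hq
  have h1 : ∀ i j, i ≠ j →
      (∑ k, q i k) + (if j = i₀ then 1 else -((d : ℝ) - 1)) * q i j = 0 := by
    intro i j hij
    rw [← HH_sum, ← hc i j hij]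
    refine Finset.sum_congr rfl fun k _ => ?_
    rw [lf_bas, lf_bas]
    simp only [hq]
    ring
  -- the first index
  have h2 : ∀ j, j ≠ i₀ → q i₀ j = (∑ k, q i₀ k) / ((d : ℝ) - 1) := by
    intro j hj
    have h5 := h1 i₀ j (Ne.symm hj)
    rw [if_neg hj] at h5
    rw [eq_div_iff (by linarith)]
    linarith
  have h4 := sum_split i₀ (q i₀) h2
  rw [mul_div_cancel₀ _ (by linarith : (d : ℝ) - 1 ≠ 0)] at h4
  have h5 : q i₀ i₀ = 0 := by linarith
  have h6 : c i₀ * ratio (bas d) (HH d i₀) i₀ = 0 := by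
    simp only [hq] at h5
    exact (div_eq_zero_iff.1 h5).resolve_right (hne _ _)
  have h7 : q i₁ i₀ = 0 := by
    simp only [hq]
    rw [h6, zero_div]
  -- the second index
  have h8 := h1 i₁ i₀ h01
  rw [if_pos rfl, h7, mul_zero, add_zero] at h8
  have h9 : ∀ j, j ≠ i₁ → q i₁ j = 0 := by
    intro j hj
    by_cases hj0 : j = i₀
    · rw [hj0, h7]
    · have h10 := h1 i₁ j (Ne.symm hj)
      rw [if_neg hj0, h8, zero_add] at h10
      rcases mul_eq_zero.1 h10 with h11 | h11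
      · exfalso; linarith
      · exact h11
  have h10 := sum_split i₁ (q i₁) h9
  rw [h8, mul_zero, add_zero] at h10
  funext k
  have h11 : q i₁ k = 0 := by
    by_cases hk : k = i₁
    · rw [hk, ← h10]
    · exact h9 k hk
  simp only [hq] at h11
  have h12 := (div_eq_zero_iff.1 h11).resolve_right (hne _ _)
  exact (mul_eq_zero.1 h12).resolve_right (hr k)

end Pool.Agent.R503.CSD
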