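import Mathlib
import Pool.Agent.R503.CSD.Core

/-! # The orbit closure of an integral form is locally a diagonal orbit -/

open Filter Topology Matrix

set_option linter.unusedSectionVars false

namespace Pool.Agent.R503.CSD

open H715R2 Pool.Agent.Y327

variable {d : ℕ}

/-- discreteness of the values of an integral form on the whole orbit closure -/
lemma values_closure {g : Matrix (Fin d) (Fin d) ℝ} (hP : PropInt g) :
    ∃ c : ℝ, 0 < c ∧ ∀ h ∈ closure (Orb g), ∀ x : Fin d → ℤ, ∃ z : ℤ, FF h (iR x) = c * z := by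
  obtain ⟨c, hc, hz⟩ := values_of_propInt hP
  refine ⟨|c|, abs_pos.2 hc, fun h hh x => ?_⟩
  have h1 : FF h (iR x) ∈ VV g := mem_VV_of_mem_closure hh x
  have h2 : VV g ⊆ (fun t : ℝ => c * t) '' (Set.range (Int.cast : ℤ → ℝ)) := by
    refine closure_minimal ?_ ?_
    · rintro _ ⟨x, rfl⟩
      obtain ⟨z, hz⟩ := hz x
      exact ⟨z, ⟨z, rfl⟩, hz.symm⟩
    · exact (Homeomorph.mulLeft₀ c hc).isClosedMap _ Int.isClosedEmbedding_coe_real.isClosed_range
  obtain ⟨_, ⟨z, rfl⟩, h3⟩ := h2 h1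
  rcases abs_cases c with ⟨h4, -⟩ | ⟨h4, -⟩
  · exact ⟨z, by rw [h4]; exact h3.symm⟩
  · refine ⟨-z, ?_⟩
    rw [h4, ← h3]
    push_cast
    ring

/-- **Local structure of the orbit closure of an integral form.** -/
theorem loc_propInt (hd : 0 < d) {g : Matrix (Fin d) (Fin d) ℝ} (hg : g.det ≠ 0) {ν : ℝ}
    (hν : 0 < ν) (hnu : HasNu g ν) (hP : PropInt g) {h₀ : Matrix (Fin d) (Fin d) ℝ}
    (hh₀ : h₀ ∈ closure (Orb g)) :
    ∀ᶠ h in 𝓝 h₀, h ∈ closure (Orb g) → ∃ a : Fin d → ℝ, (∀ i, 0 < a i) ∧ ∏ i, a i = 1 ∧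
      h = diagonal a * h₀ := by
  classical
  obtain ⟨T, hT⟩ : ∃ T : ℝ, (d.factorial : ℝ) * |g.det| < (d : ℝ) ^ d * T := by
    refine ⟨(d.factorial : ℝ) * |g.det| + 1, ?_⟩
    have h1 : (1 : ℝ) ≤ (d : ℝ) ^ d := one_le_pow₀ (by exact_mod_cast hd)
    have h2 : 0 ≤ (d.factorial : ℝ) * |g.det| := by positivity
    nlinarith
  obtain ⟨r, hr0, hvec⟩ := exists_vec_gen hd |g.det| ν T (abs_pos.2 hg) hν
    (fun h hh => mink_prod hd |g.det| T (abs_pos.2 hg) hT h hh)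
  have hdet : |h₀.det| = |g.det| := abs_det_closure hh₀
  have hdet0 : h₀.det ≠ 0 := by
    rw [← abs_ne_zero, hdet, abs_ne_zero]; exact hg
  have hnu₀ := hasNu_closure hnu hh₀
  obtain ⟨m, -, hm2⟩ := determine hd (div_pos hν (pow_pos hr0 _)) hdet0 hr0
    (hvec h₀ hdet hnu₀)
  obtain ⟨c, hc, hz⟩ := values_closure hP
  have hev : ∀ᶠ h in 𝓝 h₀, ∀ p, |FF h (iR (m p)) - FF h₀ (iR (m p))| < c := by
    refine Filter.eventually_all.2 fun p => ?_
    have h1 : Tendsto (fun h : Matrix (Fin d) (Fin d) ℝ => FF h (iR (m p))) (𝓝 h₀)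
        (𝓝 (FF h₀ (iR (m p)))) := (continuous_FF _).tendsto _
    have h2 := Metric.tendsto_nhds.1 h1 c hc
    filter_upwards [h2] with h hh
    rwa [Real.dist_eq] at hh
  filter_upwards [hm2, hev] with h h1 h2 hh
  refine h1 fun p => ?_
  obtain ⟨z, hz1⟩ := hz h hh (m p)
  obtain ⟨z₀, hz2⟩ := hz h₀ hh₀ (m p)
  have h3 := h2 p
  rw [hz1, hz2, ← mul_sub, abs_mul, abs_of_pos hc] at h3
  have h4 : |(z : ℝ) - z₀| < 1 := by
    by_contra hcon
    push Not at hcon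
    nlinarith
  have h5 : z = z₀ := by
    have h6 : |z - z₀| < 1 := by exact_mod_cast h4
    have h7 := abs_lt.1 h6
    omega
  rw [hz1, hz2, h5]

/-- the same for the scaled orbit closure -/
theorem loc_cn (hd : 0 < d) {g : Matrix (Fin d) (Fin d) ℝ} (hg : g.det ≠ 0) {ν : ℝ}
    (hν : 0 < ν) (hnu : HasNu g ν) (hP : PropInt g) {h₀ : Fin d → Fin d → ℝ}
    (hh₀ : h₀ ∈ Cn (closure (Orb g))) :
    ∀ᶠ h in 𝓝 h₀, h ∈ Cn (closure (Orb g)) → ∃ a : Fin d → ℝ, (∀ i, 0 < a i) ∧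
      h = fun i j => a i * h₀ i j := by
  obtain ⟨c, hc, h', hh', rfl⟩ := hh₀
  obtain ⟨h', rfl⟩ : ∃ h₁ : Fin d → Fin d → ℝ, Matrix.of h₁ = h' := ⟨h', rfl⟩
  have hdg : 0 < |g.det| := abs_pos.2 hg
  have hd' : (d : ℝ) ≠ 0 := by exact_mod_cast hd.ne'
  -- the normalisation map
  set N : (Fin d → Fin d → ℝ) → (Fin d → Fin d → ℝ) := fun h =>
    ((|(Matrix.of h).det| / |g.det|) ^ ((d : ℝ)⁻¹))⁻¹ • h with hN
  have hNc : ∀ (s : ℝ), 0 < s → ∀ h : Fin d → Fin d → ℝ, Matrix.of h ∈ closure (Orb g) →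
      N (s • h) = h := by
    intro s hs h hh
    have h1 : |(Matrix.of (s • h)).det| / |g.det| = s ^ d := by
      have h2 : Matrix.of (s • h) = s • Matrix.of h := rfl
      rw [h2, Matrix.det_smul, Fintype.card_fin, abs_mul, abs_det_closure hh,
        abs_of_pos (pow_pos hs d), mul_div_assoc, div_self hdg.ne', mul_one]
    simp only [hN]
    rw [h1, ← Real.rpow_natCast, ← Real.rpow_mul hs.le, mul_inv_cancel₀ hd', Real.rpow_one,
      smul_smul, inv_mul_cancel₀ hs.ne', one_smul]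
  have hdet0 : |(Matrix.of (c • h')).det| ≠ 0 := by
    have h2 : Matrix.of (c • h') = c • Matrix.of h' := rfl
    rw [h2, Matrix.det_smul, abs_ne_zero]
    refine mul_ne_zero (pow_ne_zero _ hc.ne') ?_
    rw [← abs_ne_zero, abs_det_closure hh', abs_ne_zero]
    exact hg
  have hcont : ContinuousAt N (c • h') := by
    have hdc : Continuous (fun h : Fin d → Fin d → ℝ => |(Matrix.of h).det|) := by
      have : Continuous (fun h : Matrix (Fin d) (Fin d) ℝ => h.det) := continuous_id.matrix_det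
      exact this.abs
    have hφ0 : ContinuousAt (fun h : Fin d → Fin d → ℝ =>
        (|(Matrix.of h).det| / |g.det|) ^ ((d : ℝ)⁻¹)) (c • h') :=
      ContinuousAt.rpow_const ((hdc.continuousAt).div_const _)
        (Or.inl (div_ne_zero hdet0 hdg.ne'))
    have hφ : ContinuousAt (fun h : Fin d → Fin d → ℝ =>
        ((|(Matrix.of h).det| / |g.det|) ^ ((d : ℝ)⁻¹))⁻¹) (c • h') :=
      hφ0.inv₀ (Real.rpow_pos_of_pos
        (div_pos (lt_of_le_of_ne (abs_nonneg _) hdet0.symm) hdg) _).ne'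
    exact hφ.smul continuousAt_id
  have hN0 : N (c • h') = h' := hNc c hc h' hh'
  have h1 : ∀ᶠ h : Fin d → Fin d → ℝ in 𝓝 h', Matrix.of h ∈ closure (Orb g) →
      ∃ a : Fin d → ℝ, (∀ i, 0 < a i) ∧ ∏ i, a i = 1 ∧
      Matrix.of h = diagonal a * Matrix.of h' := loc_propInt hd hg hν hnu hP hh'
  have h2 : ∀ᶠ h in 𝓝 (c • h'), Matrix.of (N h) ∈ closure (Orb g) →
      ∃ a : Fin d → ℝ, (∀ i, 0 < a i) ∧ ∏ i, a i = 1 ∧
      Matrix.of (N h) = diagonal a * Matrix.of h' := by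
    have h3 : Tendsto N (𝓝 (c • h')) (𝓝 h') := by
      have := hcont.tendsto
      rwa [hN0] at this
    exact h3.eventually h1
  filter_upwards [h2] with h hh2 hhC
  obtain ⟨s, hs, h₂, hh₂, rfl⟩ := hhC
  obtain ⟨h₂, rfl⟩ : ∃ h₁ : Fin d → Fin d → ℝ, Matrix.of h₁ = h₂ := ⟨h₂, rfl⟩
  have h4 : N (s • h₂) = h₂ := hNc s hs h₂ hh₂
  have hh2' := hh2
  have h5 : N (s • (Matrix.of h₂ : Fin d → Fin d → ℝ)) = h₂ := h4
  rw [h5] at hh2'
  obtain ⟨a, ha0, -, ha⟩ := hh2' hh₂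
  refine ⟨fun i => s / c * a i, fun i => mul_pos (div_pos hs hc) (ha0 i), ?_⟩
  funext i j
  have h6 : h₂ i j = a i * h' i j := by
    have := congrFun (congrFun ha i) j
    rw [Matrix.diagonal_mul] at this
    exact this
  show s * h₂ i j = s / c * a i * (c * h' i j)
  rw [h6]
  field_simp

end Pool.Agent.R503.CSD
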